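import Mathlib
import Pool.Agent.Results.MP_2087e7_lc.MeagerNullNotPerfectlyNull
import Pool.Agent.Helper292.ForceCH

/-!
# Consistently, `PN_σ` is smaller than `PM_σ ∩ UN` in every perfect Polish space

The forcing language is the one of `Helper292.ForceCH`: a sentence is the set of the conditions
which force it; `CHHolds P` says that `ω₁` many subsets of `ℕ` are all subsets of `ℕ`.
-/

set_option autoImplicit false

namespace Pool.Agent.Results.MP_2087e7_lc.ForcedInequality

open Cardinal Pool.Agent.Helper292.ForceCH Pool.Agent.H341Q.PN

universe u

/-- (1) Some forcing notion forces that `ω₁` is preserved and that the continuum hypothesis holds.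
(2) The continuum hypothesis implies that every nonempty perfect Polish space contains a countably
perfectly meager and universally null set which is not countably perfectly null. -/
theorem result :
    (∃ (P : Type) (_ : Preorder P), Nonempty P ∧ ∀ p : P,
      p ∈ OmegaOnePreserved P ∧ p ∈ CHHolds P) ∧
    ((ℵ₁ : Cardinal.{0}) = 𝔠 →
      ∀ (X : Type u) [TopologicalSpace X] [PolishSpace X] [PerfectSpace X] [Nonempty X]
        [MeasurableSpace X] [BorelSpace X],
        ∃ A : Set X, CountablyPerfectlyMeager A ∧ UniversallyNull A ∧
          ¬ CountablyPerfectlyNull A) := by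
  refine ⟨?_, fun h => (MeagerNullNotPerfectlyNull.result h.symm).1⟩
  · obtain ⟨P, i, h1, h2⟩ := exists_forcing
    exact ⟨P, i, h1, fun p => ⟨(h2 p).1, (h2 p).2.2⟩⟩

end Pool.Agent.Results.MP_2087e7_lc.ForcedInequality
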